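import Pool.Agent.Results.MP_68e57a_an.SeparableNoRetract

/-!
# Uniformly continuous retractions of bidual balls and complemented subspaces
-/

set_option autoImplicit false

open Metric
open Pool.Agent.Results.MP_68e57a_an.SeparableNoRetract

namespace Pool.Agent.Y136.NoRetract

variable (𝕜 : Type) [RCLike 𝕜]

section

variable {X : Type} [NormedAddCommGroup X] [NormedSpace 𝕜 X]

/-- The radial retraction onto the unit ball. -/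
noncomputable def rho (x : X) : X := (((max 1 ‖x‖ : ℝ) : 𝕜))⁻¹ • x

lemma max_pos' (x : X) : (0 : ℝ) < max 1 ‖x‖ := lt_of_lt_of_le one_pos (le_max_left _ _)

lemma norm_rho_le (x : X) : ‖rho 𝕜 x‖ ≤ 1 := by
  unfold rho
  rw [norm_smul, norm_inv, RCLike.norm_ofReal, abs_of_pos (max_pos' x),
    inv_mul_le_iff₀ (max_pos' x), mul_one]
  exact le_max_right _ _

lemma rho_of_le (x : X) (h : ‖x‖ ≤ 1) : rho 𝕜 x = x := by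
  unfold rho
  rw [max_eq_left h]
  simp

lemma rho_lip (x y : X) : ‖rho 𝕜 x - rho 𝕜 y‖ ≤ 2 * ‖x - y‖ := by
  obtain ⟨a, ha⟩ : ∃ a : ℝ, a = max 1 ‖x‖ := ⟨_, rfl⟩
  obtain ⟨b, hb⟩ : ∃ b : ℝ, b = max 1 ‖y‖ := ⟨_, rfl⟩
  have ha1 : 1 ≤ a := ha ▸ le_max_left _ _
  have hb1 : 1 ≤ b := hb ▸ le_max_left _ _
  have hyb : ‖y‖ ≤ b := hb ▸ le_max_right _ _
  have hab : |a - b| ≤ ‖x - y‖ := by
    rw [ha, hb, max_comm 1 ‖x‖, max_comm 1 ‖y‖]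
    exact (abs_max_sub_max_le_abs _ _ _).trans (abs_norm_sub_norm_le x y)
  have ha0 : 0 < a := by linarith
  have hb0 : 0 < b := by linarith
  have h2 : |a⁻¹ - b⁻¹| * ‖y‖ ≤ |a - b| := by
    have e2 : a⁻¹ - b⁻¹ = (b - a) / (a * b) := by field_simp
    rw [e2, abs_div, abs_of_pos (mul_pos ha0 hb0), abs_sub_comm, div_mul_eq_mul_div,
      div_le_iff₀ (mul_pos ha0 hb0)]
    refine mul_le_mul_of_nonneg_left (hyb.trans ?_) (abs_nonneg _)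
    exact le_mul_of_one_le_left hb0.le ha1
  have e : rho 𝕜 x - rho 𝕜 y = ((a⁻¹ : ℝ) : 𝕜) • (x - y) + (((a⁻¹ - b⁻¹ : ℝ)) : 𝕜) • y := by
    unfold rho
    rw [← ha, ← hb]
    push_cast
    rw [smul_sub, sub_smul]
    abel
  rw [e]
  refine (norm_add_le _ _).trans ?_
  rw [norm_smul, norm_smul, RCLike.norm_ofReal, RCLike.norm_ofReal,
    abs_of_pos (inv_pos.mpr ha0)]
  have h3 : a⁻¹ * ‖x - y‖ ≤ ‖x - y‖ :=
    mul_le_of_le_one_left (norm_nonneg _) (inv_le_one_of_one_le₀ ha1)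
  linarith

end

/-- The construction for abstract spaces in the place of the biduals. -/
theorem abstract_transfer {X Z X2 Z2 : Type} [NormedAddCommGroup X] [NormedSpace 𝕜 X]
    [NormedAddCommGroup Z] [NormedSpace 𝕜 Z] [NormedAddCommGroup X2] [NormedAddCommGroup Z2]
    (JX : X → X2) (JZ : Z → Z2) (g : X2 → Z2) (hg : ∀ F F', ‖g F - g F'‖ ≤ ‖F - F'‖)
    (hg1 : ∀ F, ‖F‖ ≤ 1 → ‖g F‖ ≤ 1) (T : X →L[𝕜] Z) (P : Z →L[𝕜] X) (hPT : ∀ x, P (T x) = x)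
    (L : ℝ) (hL0 : 0 < L) (hTL : ‖T‖ ≤ L) (hJ : ∀ x, g (JX x) = JZ (((L : ℝ) : 𝕜)⁻¹ • T x))
    (r : closedBall (0 : Z2) 1 → closedBall (0 : Z) 1) (hr1 : UniformContinuous r)
    (hr2 : ∀ (x : closedBall (0 : Z) 1) (ξ : closedBall (0 : Z2) 1), ξ.1 = JZ x.1 → r ξ = x) :
    ∃ r' : closedBall (0 : X2) 1 → closedBall (0 : X) 1, UniformContinuous r' ∧
      ∀ (x : closedBall (0 : X) 1) (ξ : closedBall (0 : X2) 1), ξ.1 = JX x.1 → r' ξ = x := by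
  have hLne : ((L : ℝ) : 𝕜) ≠ 0 := by exact_mod_cast hL0.ne'
  have hgb : ∀ ξ : closedBall (0 : X2) 1, g ξ.1 ∈ closedBall (0 : Z2) 1 := fun ξ =>
    mem_closedBall_zero_iff.mpr (hg1 _ (mem_closedBall_zero_iff.mp ξ.2))
  refine ⟨fun ξ => ⟨rho 𝕜 (P (((L : ℝ) : 𝕜) • (r ⟨g ξ.1, hgb ξ⟩).1)),
    mem_closedBall_zero_iff.mpr (norm_rho_le 𝕜 _)⟩, ?_, ?_⟩
  · rw [Metric.uniformContinuous_iff] at hr1 ⊢
    intro ε hε
    have hK : 0 < 2 * (‖P‖ * L) + 1 := by positivity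
    obtain ⟨δ, hδ, h1⟩ := hr1 (ε / (2 * (‖P‖ * L) + 1)) (by positivity)
    refine ⟨δ, hδ, fun {ξ η} hξη => ?_⟩
    have h2 : dist (⟨g ξ.1, hgb ξ⟩ : closedBall (0 : Z2) 1) ⟨g η.1, hgb η⟩ < δ := by
      refine lt_of_le_of_lt ?_ hξη
      rw [Subtype.dist_eq, Subtype.dist_eq, dist_eq_norm, dist_eq_norm]
      exact hg _ _
    have h3 := h1 h2
    rw [Subtype.dist_eq, dist_eq_norm] at h3
    rw [Subtype.dist_eq, dist_eq_norm]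
    obtain ⟨u, hu⟩ : ∃ u, u = (r ⟨g ξ.1, hgb ξ⟩).1 := ⟨_, rfl⟩
    obtain ⟨v, hv⟩ : ∃ v, v = (r ⟨g η.1, hgb η⟩).1 := ⟨_, rfl⟩
    rw [← hu, ← hv] at h3
    change ‖rho 𝕜 (P (((L : ℝ) : 𝕜) • (r ⟨g ξ.1, hgb ξ⟩).1)) -
      rho 𝕜 (P (((L : ℝ) : 𝕜) • (r ⟨g η.1, hgb η⟩).1))‖ < ε
    rw [← hu, ← hv]
    refine lt_of_le_of_lt (rho_lip 𝕜 _ _) ?_
    rw [← map_sub, ← smul_sub]
    have h4 : ‖P (((L : ℝ) : 𝕜) • (u - v))‖ ≤ ‖P‖ * L * ‖u - v‖ := by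
      refine (P.le_opNorm _).trans (le_of_eq ?_)
      rw [norm_smul, RCLike.norm_ofReal, abs_of_pos hL0]
      ring
    rw [lt_div_iff₀ hK] at h3
    nlinarith [norm_nonneg (u - v)]
  · intro x ξ hξ
    have h1 : ‖x.1‖ ≤ 1 := mem_closedBall_zero_iff.mp x.2
    have h2 : ‖((L : ℝ) : 𝕜)⁻¹ • T x.1‖ ≤ 1 := by
      rw [norm_smul, norm_inv, RCLike.norm_ofReal, abs_of_pos hL0, inv_mul_le_iff₀ hL0, mul_one]
      exact (T.le_opNorm _).trans ((mul_le_of_le_one_right (norm_nonneg _) h1).trans hTL)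
    have h3 := hr2 ⟨((L : ℝ) : 𝕜)⁻¹ • T x.1, mem_closedBall_zero_iff.mpr h2⟩ ⟨g ξ.1, hgb ξ⟩ (by
      change g ξ.1 = JZ (((L : ℝ) : 𝕜)⁻¹ • T x.1)
      rw [hξ, hJ])
    apply Subtype.ext
    change rho 𝕜 (P (((L : ℝ) : 𝕜) • (r ⟨g ξ.1, hgb ξ⟩).1)) = x.1
    rw [h3]
    change rho 𝕜 (P (((L : ℝ) : 𝕜) • (((L : ℝ) : 𝕜)⁻¹ • T x.1))) = x.1
    rw [smul_smul, mul_inv_cancel₀ hLne, one_smul, hPT, rho_of_le 𝕜 x.1 h1]

section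

variable {X Z : Type} [NormedAddCommGroup X] [NormedSpace 𝕜 X] [NormedAddCommGroup Z]
  [NormedSpace 𝕜 Z]

/-- The adjoint map. -/
noncomputable def pre (T : X →L[𝕜] Z) : StrongDual 𝕜 Z →L[𝕜] StrongDual 𝕜 X :=
  (ContinuousLinearMap.compL 𝕜 X Z 𝕜).flip T

/-- The second adjoint map, divided by `L`. -/
noncomputable def gg (T : X →L[𝕜] Z) (L : ℝ) (F : StrongDual 𝕜 (StrongDual 𝕜 X)) :
    StrongDual 𝕜 (StrongDual 𝕜 Z) :=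
  ((L : ℝ) : 𝕜)⁻¹ • (F.comp (pre 𝕜 T))

lemma gg_apply (T : X →L[𝕜] Z) (L : ℝ) (F : StrongDual 𝕜 (StrongDual 𝕜 X))
    (φ : StrongDual 𝕜 Z) : gg 𝕜 T L F φ = ((L : ℝ) : 𝕜)⁻¹ * F (φ.comp T) := rfl

lemma gg_sub_le (T : X →L[𝕜] Z) {L : ℝ} (hL0 : 0 < L) (hTL : ‖T‖ ≤ L)
    (F F' : StrongDual 𝕜 (StrongDual 𝕜 X)) : ‖gg 𝕜 T L F - gg 𝕜 T L F'‖ ≤ ‖F - F'‖ := by
  refine ContinuousLinearMap.opNorm_le_bound _ (ContinuousLinearMap.opNorm_nonneg _) fun φ => ?_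
  have e0 : (gg 𝕜 T L F - gg 𝕜 T L F') φ = ((L : ℝ) : 𝕜)⁻¹ * (F - F') (φ.comp T) := by
    change gg 𝕜 T L F φ - gg 𝕜 T L F' φ = ((L : ℝ) : 𝕜)⁻¹ * (F (φ.comp T) - F' (φ.comp T))
    rw [gg_apply, gg_apply, mul_sub]
  have e1 : ‖(F - F') (φ.comp T)‖ ≤ ‖F - F'‖ * ‖φ.comp T‖ := (F - F').le_opNorm _
  have e2 : ‖φ.comp T‖ ≤ ‖φ‖ * L := (φ.opNorm_comp_le T).trans
    (mul_le_mul_of_nonneg_left hTL (norm_nonneg _))
  have e3 : (0 : ℝ) ≤ ‖F - F'‖ := ContinuousLinearMap.opNorm_nonneg _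
  have e4 : ‖(gg 𝕜 T L F - gg 𝕜 T L F') φ‖ = L⁻¹ * ‖(F - F') (φ.comp T)‖ := by
    rw [e0, norm_mul, norm_inv, RCLike.norm_ofReal, abs_of_pos hL0]
  rw [e4, inv_mul_le_iff₀ hL0]
  calc ‖(F - F') (φ.comp T)‖ ≤ ‖F - F'‖ * (‖φ‖ * L) :=
        e1.trans (mul_le_mul_of_nonneg_left e2 e3)
    _ = L * (‖F - F'‖ * ‖φ‖) := by ring

lemma gg_norm_le (T : X →L[𝕜] Z) {L : ℝ} (hL0 : 0 < L) (hTL : ‖T‖ ≤ L)
    (F : StrongDual 𝕜 (StrongDual 𝕜 X)) (hF : ‖F‖ ≤ 1) : ‖gg 𝕜 T L F‖ ≤ 1 := by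
  refine ContinuousLinearMap.opNorm_le_bound _ zero_le_one fun φ => ?_
  have e1 : ‖F (φ.comp T)‖ ≤ ‖F‖ * ‖φ.comp T‖ := F.le_opNorm _
  have e2 : ‖φ.comp T‖ ≤ ‖φ‖ * L := (φ.opNorm_comp_le T).trans
    (mul_le_mul_of_nonneg_left hTL (norm_nonneg _))
  have e5 : ‖F‖ * ‖φ.comp T‖ ≤ 1 * ‖φ.comp T‖ := mul_le_mul_of_nonneg_right hF (norm_nonneg _)
  have e4 : ‖gg 𝕜 T L F φ‖ = L⁻¹ * ‖F (φ.comp T)‖ := by
    rw [gg_apply, norm_mul, norm_inv, RCLike.norm_ofReal, abs_of_pos hL0]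
  rw [e4, inv_mul_le_iff₀ hL0]
  linarith

/-- If `X` is isomorphic to a complemented subspace of `Z` and the unit ball of `Z` is a uniformly
continuous retract of the unit ball of `Z**`, then the same is true for `X`. -/
theorem transfer (T : X →L[𝕜] Z) (P : Z →L[𝕜] X) (hPT : ∀ x, P (T x) = x)
    (h : ∃ r, IsRetraction 𝕜 Z r) : ∃ r, IsRetraction 𝕜 X r := by
  obtain ⟨r, hr1, hr2⟩ := h
  have hL0 : (0 : ℝ) < max 1 ‖T‖ := lt_of_lt_of_le one_pos (le_max_left _ _)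
  exact abstract_transfer 𝕜 (X2 := StrongDual 𝕜 (StrongDual 𝕜 X))
    (Z2 := StrongDual 𝕜 (StrongDual 𝕜 Z)) (J 𝕜 X) (J 𝕜 Z) (gg 𝕜 T (max 1 ‖T‖))
    (gg_sub_le 𝕜 T hL0 (le_max_right _ _)) (gg_norm_le 𝕜 T hL0 (le_max_right _ _)) T P hPT _ hL0
    (le_max_right _ _) (fun x => ContinuousLinearMap.ext fun φ => by
      rw [gg_apply]
      change _ * φ (T x) = φ (_ • T x)
      rw [map_smul, smul_eq_mul]) r hr1 hr2

end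

theorem main_retract :
    (∀ (X Z : Type) [NormedAddCommGroup X] [NormedSpace 𝕜 X] [NormedAddCommGroup Z]
      [NormedSpace 𝕜 Z] (T : X →L[𝕜] Z) (P : Z →L[𝕜] X), (∀ x, P (T x) = x) →
      (∃ r, IsRetraction 𝕜 Z r) → ∃ r, IsRetraction 𝕜 X r) ∧
    (∃ (X : Type) (_ : NormedAddCommGroup X) (_ : NormedSpace 𝕜 X),
      CompleteSpace X ∧ TopologicalSpace.SeparableSpace X ∧
      ∀ (Z : Type) [NormedAddCommGroup Z] [NormedSpace 𝕜 Z] (T : X →L[𝕜] Z) (P : Z →L[𝕜] X),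
        (∀ x, P (T x) = x) → ¬ ∃ r, IsRetraction 𝕜 Z r) ∧
    ∀ (Y : Type) [NormedAddCommGroup Y] [NormedSpace 𝕜 Y] [CompleteSpace Y]
      [TopologicalSpace.SeparableSpace Y],
      ∃ (Z : Type) (_ : NormedAddCommGroup Z) (_ : NormedSpace 𝕜 Z),
        CompleteSpace Z ∧ TopologicalSpace.SeparableSpace Z ∧
        (∃ (i : Y →ₗᵢ[𝕜] Z) (p : Z →L[𝕜] Y), (∀ y, p (i y) = y) ∧
          ∀ z, ‖z‖ = max ‖p z‖ ‖z - i (p z)‖) ∧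
        ∀ (Z' : Type) [NormedAddCommGroup Z'] [NormedSpace 𝕜 Z'], (Z ≃L[𝕜] Z') →
          ¬ ∃ r, IsRetraction 𝕜 Z' r := by
  obtain ⟨X, _, _, hc, hs, hX⟩ := Pool.Agent.Results.MP_68e57a_an.SeparableNoRetract.result 𝕜
  refine ⟨fun X Z _ _ _ _ T P h hr => transfer 𝕜 T P h hr,
    ⟨X, inferInstance, inferInstance, hc, hs, fun Z _ _ T P h hr => hX (transfer 𝕜 T P h hr)⟩, ?_⟩
  intro Y _ _ _ _
  refine ⟨Y × X, inferInstance, inferInstance, inferInstance, inferInstance, ?_, ?_⟩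
  · refine ⟨⟨LinearMap.inl 𝕜 Y X, fun y => by simp [Prod.norm_def]⟩,
      ContinuousLinearMap.fst 𝕜 Y X, fun y => rfl, ?_⟩
    rintro ⟨y, x⟩
    simp [Prod.norm_def]
  · intro Z' _ _ e hr
    refine hX (transfer 𝕜 ((e : (Y × X) →L[𝕜] Z').comp (ContinuousLinearMap.inr 𝕜 Y X))
      ((ContinuousLinearMap.snd 𝕜 Y X).comp (e.symm : Z' →L[𝕜] (Y × X))) (fun x => ?_) hr)
    simp

end Pool.Agent.Y136.NoRetract
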